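import Mathlib

set_option autoImplicit false

namespace Pool.Agent.Results.MP_812af1_co.Unbalanced

open Matrix Finset

variable {n : ℕ} [NeZero n]

/-- `H` is a Butson matrix `BH(m, n)`. -/
def Butson (m : ℕ) (H : Matrix (Fin n) (Fin n) ℂ) : Prop :=
  (∀ i j, H i j ^ m = 1) ∧ H * Hᴴ = (n : ℂ) • (1 : Matrix (Fin n) (Fin n) ℂ)

/-- `K` arises from `H` by permuting rows and columns and scaling them by `m`-th roots of unity. -/
def Equivalent (m : ℕ) (H K : Matrix (Fin n) (Fin n) ℂ) : Prop :=
  ∃ (σ τ : Equiv.Perm (Fin n)) (r c : Fin n → ℂ), (∀ i, r i ^ m = 1) ∧ (∀ j, c j ^ m = 1) ∧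
    ∀ i j, K i j = r i * c j * H (σ i) (τ j)

/-- The first row and the first column consist of ones. -/
def Normalised (H : Matrix (Fin n) (Fin n) ℂ) : Prop := ∀ i, H 0 i = 1 ∧ H i 0 = 1

/-- Any two `m`-th roots of unity occur equally often in every row other than the first. -/
def RowBalanced (m : ℕ) (H : Matrix (Fin n) (Fin n) ℂ) : Prop :=
  ∀ i ≠ 0, ∀ z w : ℂ, z ^ m = 1 → w ^ m = 1 → {j | H i j = z}.ncard = {j | H i j = w}.ncard

def u (k : ℕ) : GaussianInt :=
  if k = 0 then ⟨1, 0⟩ else if k = 1 then ⟨0, 1⟩ else if k = 2 then ⟨-1, 0⟩ else ⟨0, -1⟩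

def G (i j : Fin 16) : GaussianInt := u ((1598871375871375397268178644433934949774582845040497047762048309857261712739579995958160992821354431890478053900595596319649287837192241874704581468880896 >>> (2 * (16 * i.1 + j.1))) % 4)

def G' (i j : Fin 16) : GaussianInt := star (G 2 j) * G (Equiv.swap 0 2 i) j

theorem cnt (f : Fin 16 → GaussianInt) (g : GaussianInt) :
    {j | (f j : ℂ) = g}.ncard = #{j | f j = g} := by
  rw [← Set.ncard_coe_finset]
  congr 1
  ext j
  simp

theorem root (z : ℂ) (h : z ^ 4 = 1) : ∃ k < 4, z = u k := by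
  obtain ⟨k, h1, rfl⟩ := Complex.isPrimitiveRoot_I.eq_pow_of_pow_eq_one h
  refine ⟨k, h1, ?_⟩
  interval_cases k <;> simp [u, GaussianInt.toComplex_def', pow_succ]

theorem bal (F : Fin 16 → Fin 16 → GaussianInt) (h : ∀ i ≠ 0, ∀ k < 4, #{j | F i j = u k} = 4) :
    RowBalanced 4 (of fun i j => (F i j : ℂ)) := by
  intro i hi z w hz hw
  obtain ⟨k, h1, rfl⟩ := root z hz
  obtain ⟨l, h2, rfl⟩ := root w hw
  exact (cnt _ _).trans ((h i hi k h1).trans ((cnt _ _).trans (h i hi l h2)).symm)

/-- A normalised `BH(4,16)` that is row and column balanced, with an equivalent normalised matrix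
that is not row balanced. -/
theorem result : ∃ H K : Matrix (Fin 16) (Fin 16) ℂ, Butson 4 H ∧ Equivalent 4 H K ∧
    Normalised H ∧ RowBalanced 4 H ∧ RowBalanced 4 Hᵀ ∧ Normalised K ∧ ¬ RowBalanced 4 K := by
  have p : ∀ g : GaussianInt, g ^ 4 = 1 → (g : ℂ) ^ 4 = 1 := fun g h => by
    rw [← map_pow, h, map_one]
  have o : ∀ g : GaussianInt, g = 1 → (g : ℂ) = 1 := fun g h => by rw [h, map_one]
  refine ⟨of fun i j => G i j, of fun i j => G' i j, ⟨fun i j => p _ ?_, ?_⟩,
    ⟨Equiv.swap 0 2, 1, 1, fun j => star (G 2 j), fun _ => one_pow _, fun j => ?_, fun i j => ?_⟩,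
    fun i => ⟨o _ ?_, o _ ?_⟩, bal _ (by decide +kernel), bal (fun i j => G j i) (by decide +kernel),
    fun i => ⟨o _ ?_, o _ ?_⟩, fun h => ?_⟩
  · revert i j
    decide +kernel
  · ext i j
    have h : ∀ i j, ∑ k, G i k * star (G j k) = if i = j then 16 else 0 := by decide +kernel
    have := congrArg GaussianInt.toComplex (h i j)
    simp only [map_sum, map_mul, GaussianInt.toComplex_star] at this
    simp only [mul_apply, conjTranspose_apply, of_apply, Matrix.smul_apply, Matrix.one_apply,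
      RCLike.star_def,
      this]
    split_ifs <;> simp [map_ofNat]
  · rw [← star_pow, p _ (by revert j; decide +kernel), star_one]
  · simp [G', GaussianInt.toComplex_star]
  any_goals
    revert i
    decide +kernel
  have := h 4 (by decide) (u 0) (u 1) (p _ (by decide)) (p _ (by decide))
  exact absurd ((cnt _ _).symm.trans (this.trans (cnt _ _))) (by decide +kernel)

end Pool.Agent.Results.MP_812af1_co.Unbalanced
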